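import Mathlib
import Pool.Agent.H67.SG3

namespace Pool.Agent.Results.MP_eab7e5_al.NonSimple

open Pool.Agent.H67.SG

/-- There is a strongly group graded, graded simple ring with `1 ≠ 0`, in which the centralizer
of the identity component is the centre of the identity component, and which is not simple. -/
theorem result : ∃ (G R : Type) (_ : Group G) (_ : Ring R) (𝒜 : G → AddSubgroup R),
    (1 : R) ≠ 0 ∧ IsStrongGrading 𝒜 ∧ IsGradedSimple 𝒜 ∧ SmallCentralizer 𝒜 ∧
    ∃ I : TwoSidedIdeal R, I ≠ ⊥ ∧ I ≠ ⊤ := by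
  obtain ⟨g, hg, a, ha, h0, ha'⟩ := hex
  haveI : Nontrivial SS := ⟨⟨a, 0, h0⟩⟩
  obtain ⟨I, h1, h2⟩ := nonsimple AAA GG hnorm g hg a ha h0 ha'
  refine ⟨GG, RR AAA GG hnorm, inferInstance, inferInstance, AA AAA GG hnorm, ?_,
    strong AAA GG hnorm, gsimple AAA GG hnorm hsimple, small AAA GG hnorm hcent, I, h1, h2⟩
  intro h
  apply h2
  rw [← TwoSidedIdeal.one_mem_iff, h]
  exact I.zero_mem

end Pool.Agent.Results.MP_eab7e5_al.NonSimple
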